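import Pool.Agent.Lib.MP_905f9a_lc.D.Defs

/-! Back and forth for structures with finitely many orbits on tuples, any signature. -/

namespace Pool.Agent.Lib.MP_905f9a_lc.Fn

open FirstOrder FirstOrder.Language FirstOrder.Language.Structure Function Set Order

universe u v

variable {L : FirstOrder.Language.{u, v}} {A M N : Type} [L.Structure A] [L.Structure M]
  [L.Structure N]

variable (L A) in
/-- Finitely many orbits of automorphisms on tuples. -/
def Olig : Prop := ∀ (I : Type) [Finite I], ∃ (κ : Type) (_ : Finite κ) (c : (I → A) → κ),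
  ∀ x y, c x = c y → ∃ e : A ≃[L] A, e ∘ x = y

theorem all_tr (h : A ≅[L] M) {I : Type} [Finite I] {φ : L.Formula I}
    (k : ∀ x : I → A, φ.Realize x) (y : I → M) : φ.Realize y := by
  have := Formula.realize_iAlls.1 ((h.realize_sentence ((φ.relabel Sum.inr).iAlls I)).1
    (Formula.realize_iAlls.2 fun i => Formula.realize_relabel.2 (k i))) y
  rw [Formula.realize_relabel] at this
  exact this

variable (L) in
/-- Equal types. -/
def Eq2 {I : Type} (x : I → M) (y : I → N) : Prop :=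
  ∀ φ : L.Formula I, φ.Realize x → φ.Realize y

theorem Eq2.symm {I : Type} {x : I → M} {y : I → N} (h : Eq2 L x y) : Eq2 L y x :=
  fun φ k => by_contra fun j => Formula.realize_not.1 (h φ.not (Formula.realize_not.2 j)) k

theorem Eq2.comp {I J : Type} {x : I → M} {y : I → N} (h : Eq2 L x y) (f : J → I) :
    Eq2 L (x ∘ f) (y ∘ f) := fun φ k =>
  Formula.realize_relabel.1 (h (φ.relabel f) (Formula.realize_relabel.2 k))

theorem Olig.iso (hO : Olig L A) {I : Type} [Finite I] (x : I → A) :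
    ∃ φ : L.Formula I, φ.Realize x ∧ ∀ y : I → A, φ.Realize y → Eq2 L x y := by
  obtain ⟨κ, _, c, hc⟩ := hO I
  have : ∀ k : κ, ∃ φ : L.Formula I, φ.Realize x ∧
      ∀ y : I → A, φ.Realize y → c y = k → Eq2 L x y := by
    intro k
    by_cases h : ∃ y, c y = k ∧ ¬ Eq2 L x y
    · obtain ⟨y0, h1, h2⟩ := h
      simp only [Eq2, not_forall] at h2
      obtain ⟨φ, hx, hy⟩ := h2
      refine ⟨φ, hx, fun y k1 k2 => ?_⟩
      obtain ⟨e, rfl⟩ := hc y y0 (k2.trans h1.symm)
      exact absurd ((StrongHomClass.realize_formula e φ).2 k1) hy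
    · push Not at h
      exact ⟨⊤, Formula.realize_top.2 trivial, fun y _ hy => h y hy⟩
  choose φ h1 h2 using this
  exact ⟨Formula.iInf φ, Formula.realize_iInf.2 h1,
    fun y hy => h2 _ y (Formula.realize_iInf.1 hy _) rfl⟩

theorem Olig.ext (hO : Olig L A) (hM : A ≅[L] M) (hN : A ≅[L] N) {I : Type} [Finite I]
    {x : I → M} {y : I → N} (h : Eq2 L x y) (a : M) :
    ∃ b, Eq2 L (Sum.elim x fun _ : Unit => a) (Sum.elim y fun _ => b) := by
  obtain ⟨κ, _, c, hc⟩ := hO (I ⊕ Unit)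
  choose φ h1 h2 using fun z : I ⊕ Unit → A => hO.iso z
  obtain ⟨k, hk⟩ := Formula.realize_iSup.1 (all_tr hM
    (φ := Formula.iSup fun k : range c => φ k.2.choose) (fun z => by
      obtain ⟨e, he⟩ := hc _ z (Exists.choose_spec (⟨z, rfl⟩ : c z ∈ range c))
      refine Formula.realize_iSup.2 ⟨⟨c z, z, rfl⟩, ?_⟩
      exact (iff_of_eq (congrArg _ he)).1 ((StrongHomClass.realize_formula e _).2 (h1 _)))
    (Sum.elim x fun _ : Unit => a))
  obtain ⟨b, hb⟩ := Formula.realize_iExs.1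
    (h ((φ k.2.choose).iExs Unit) (Formula.realize_iExs.2 ⟨fun _ => a, hk⟩))
  refine ⟨b (), fun θ hθ => ?_⟩
  by_cases j : θ.Realize k.2.choose
  · exact Formula.realize_imp.1 (all_tr hN (φ := (φ k.2.choose).imp θ)
      (fun z => Formula.realize_imp.2 fun hz => h2 _ z hz θ j) _) hb
  · exact absurd hθ (Formula.realize_not.1 (Formula.realize_imp.1 (all_tr hM
      (φ := (φ k.2.choose).imp θ.not) (fun z => Formula.realize_imp.2 fun hz =>
        h2 _ z hz θ.not (Formula.realize_not.2 j)) _) hk))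

variable (L) in
/-- Finite elementary maps. -/
def Gd (p : Finset (M × N)) : Prop :=
  ∀ (I : Type) (x : I → M) (y : I → N), (∀ i, (x i, y i) ∈ p) → Eq2 L x y

theorem gd_of {I : Type} {x : I → M} {y : I → N} (h : Eq2 L x y) (p : Finset (M × N))
    (hp : ∀ q ∈ p, ∃ i, q = (x i, y i)) : Gd L p := by
  intro J x' y' h'
  choose f hf using fun j => hp _ (h' j)
  have e1 : x' = x ∘ f := funext fun j => congrArg Prod.fst (hf j)
  have e2 : y' = y ∘ f := funext fun j => congrArg Prod.snd (hf j)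
  rw [e1, e2]
  exact h.comp f

theorem Olig.bf (hO : Olig L A) (hM : A ≅[L] M) (hN : A ≅[L] N) [Countable M] [Countable N]
    {I : Type} [Finite I] {x : I → M} {y : I → N} (h : Eq2 L x y) :
    ∃ e : M ≃[L] N, e ∘ x = y := by
  classical
  have := Fintype.ofFinite I
  let _ := Encodable.ofCountable M
  let _ := Encodable.ofCountable N
  let X := {p : Finset (M × N) // Gd L p}
  let p0 : X := ⟨Finset.univ.image (fun i => (x i, y i)), gd_of h _ (fun q hq => by
    obtain ⟨i, -, rfl⟩ := Finset.mem_image.1 hq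
    exact ⟨i, rfl⟩)⟩
  have ins : ∀ (p : X) (a : M) (b : N),
      Eq2 L (Sum.elim (fun i : p.1 => i.1.1) fun _ : Unit => a)
        (Sum.elim (fun i => i.1.2) fun _ => b) → ∃ q : X, (a, b) ∈ q.1 ∧ p ≤ q := fun p a b hb =>
    ⟨⟨insert (a, b) p.1, gd_of hb _ (fun q hq => by
      rcases Finset.mem_insert.1 hq with rfl | hq
      · exact ⟨Sum.inr (), rfl⟩
      · exact ⟨Sum.inl ⟨q, hq⟩, rfl⟩)⟩, Finset.mem_insert_self _ _, Finset.subset_insert _ _⟩
  let cf : M ⊕ N → Cofinal X := fun s => Sum.recOn s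
    (fun a => ⟨{p | ∃ b, (a, b) ∈ p.1}, fun p => by
      obtain ⟨b, hb⟩ := hO.ext hM hN (p.2 p.1 (fun i => i.1.1) (fun i => i.1.2) (fun i => i.2)) a
      obtain ⟨q, h1, h2⟩ := ins p a b hb
      exact ⟨q, ⟨b, h1⟩, h2⟩⟩)
    (fun b => ⟨{p | ∃ a, (a, b) ∈ p.1}, fun p => by
      obtain ⟨a, ha⟩ :=
        hO.ext hN hM (p.2 p.1 (fun i => i.1.1) (fun i => i.1.2) (fun i => i.2)).symm b
      obtain ⟨q, h1, h2⟩ := ins p a b ha.symm
      exact ⟨q, ⟨a, h1⟩, h2⟩⟩)
  let I0 : Ideal X := idealOfCofinals p0 cf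
  let r : M → N → Prop := fun a b => ∃ p ∈ I0, (a, b) ∈ p.1
  have hr : ∀ (J : Type) [Finite J] (x : J → M) (y : J → N), (∀ j, r (x j) (y j)) →
      Eq2 L x y := by
    intro J _ x y hxy
    choose p hp1 hp2 using hxy
    have hd : Directed (· ≤ ·) (fun q : I0 => (q : X)) := I0.directed.directed_val
    have : Nonempty I0 := ⟨⟨p0, mem_idealOfCofinals _ _⟩⟩
    obtain ⟨z, hz⟩ := hd.finite_le (fun j => ⟨p j, hp1 j⟩)
    exact z.1.2 J x y (fun j => hz j (hp2 j))
  have hl : ∀ a, ∃ b, r a b := fun a => by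
    obtain ⟨p, ⟨b, hb⟩, hp⟩ := cofinal_meets_idealOfCofinals p0 cf (Sum.inl a)
    exact ⟨b, p, hp, hb⟩
  have hrr : ∀ b, ∃ a, r a b := fun b => by
    obtain ⟨p, ⟨a, ha⟩, hp⟩ := cofinal_meets_idealOfCofinals p0 cf (Sum.inr b)
    exact ⟨a, p, hp, ha⟩
  have hu : ∀ a b a' b', r a b → r a' b' → (a = a' ↔ b = b') := by
    intro a b a' b' h1 h2
    have e := hr (Fin 2) ![a, a'] ![b, b'] (by
      intro j; fin_cases j; exacts [h1, h2])
    exact ⟨fun h => Formula.realize_equal.1
        (e ((Term.var 0).equal (Term.var 1)) (Formula.realize_equal.2 h)),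
      fun h => Formula.realize_equal.1
        (e.symm ((Term.var 0).equal (Term.var 1)) (Formula.realize_equal.2 h))⟩
  choose f hf using hl
  choose g hg using hrr
  refine ⟨⟨⟨f, g, fun a => (hu _ _ _ _ (hg (f a)) (hf a)).2 rfl,
    fun b => (hu _ _ _ _ (hf (g b)) (hg b)).1 rfl⟩, fun {n} F z => ?_, fun {n} R z => ?_⟩,
    funext fun i => ?_⟩
  · have e := hr (Fin (n + 1)) (Fin.cons (funMap F z) z) _ (fun j => hf _)
    exact Formula.realize_graph.1 (e (Formula.graph F) (Formula.realize_graph.2 rfl)) |>.symm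
  · have e := hr (Fin n) z (f ∘ z) (fun j => hf (z j))
    exact ⟨fun h => Formula.realize_rel.1
        (e.symm (R.formula fun i => Term.var i) (Formula.realize_rel.2 h)),
      fun h => Formula.realize_rel.1 (e (R.formula fun i => Term.var i) (Formula.realize_rel.2 h))⟩
  · exact (hu _ _ _ _ (hf (x i)) ⟨p0, mem_idealOfCofinals _ _,
      Finset.mem_image_of_mem (fun i => (x i, y i)) (Finset.mem_univ i)⟩).1 rfl

theorem Olig.cat (hO : Olig L A) [Nonempty A] : D.IsOmegaCat L A := by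
  intro M N hM hN
  have := Cardinal.mk_le_aleph0_iff.1 hM.le
  have := Cardinal.mk_le_aleph0_iff.1 hN.le
  have k : ∀ K : Theory.ModelType.{u, v, 0} (L.completeTheory A), A ≅[L] K := fun K =>
    elementarilyEquivalent_iff.2 fun φ => (realize_iff_of_model_completeTheory A K φ).symm
  obtain ⟨e, -⟩ := hO.bf (k M) (k N) (I := Empty) (x := default) (y := default) fun φ =>
    (((k M).symm.trans (k N)).realize_sentence φ).1
  exact ⟨e⟩

end Pool.Agent.Lib.MP_905f9a_lc.Fn
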