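import Pool.Agent.Lib.MP_905f9a_lc.Fn.Defs
import Pool.Agent.Lib.MP_905f9a_lc.Homog

/-! A non-split cover of the pairs of an infinite set, with the discriminator. -/

namespace Pool.Agent.Lib.MP_905f9a_lc.Fn

open FirstOrder FirstOrder.Language FirstOrder.Language.Structure Function

universe u v

/-- An involution exchanging two tuples. -/
theorem swap_of {α I : Type} [Finite I] (x y : I → α)
    (h : ∀ u v, Sum.elim x y u = Sum.elim x y v → Sum.elim y x u = Sum.elim y x v) :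
    ∃ σ : Equiv.Perm α, (∀ n, σ (σ n) = n) ∧ (∀ k, σ (x k) = y k) ∧ (∀ k, σ (y k) = x k) ∧
      ∀ n, σ n ≠ n → ∃ k, n = x k ∨ n = y k := by
  classical
  let g : α → α := fun n => if e : ∃ u, Sum.elim x y u = n then Sum.elim y x e.choose else n
  have g1 : ∀ u, g (Sum.elim x y u) = Sum.elim y x u := fun u => by
    have e : ∃ v, Sum.elim x y v = Sum.elim x y u := ⟨u, rfl⟩
    exact (dif_pos e).trans (h _ _ e.choose_spec)
  have g2 : ∀ n, (¬ ∃ u, Sum.elim x y u = n) → g n = n := fun n e => dif_neg e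
  have g3 : Involutive g := fun n => by
    by_cases e : ∃ u, Sum.elim x y u = n
    · obtain ⟨u | u, rfl⟩ := e
      · exact (congrArg g (g1 (Sum.inl u))).trans (g1 (Sum.inr u))
      · exact (congrArg g (g1 (Sum.inr u))).trans (g1 (Sum.inl u))
    · rw [g2 n e, g2 n e]
  refine ⟨g3.toPerm, g3, fun k => g1 (Sum.inl k), fun k => g1 (Sum.inr k), fun n hn => ?_⟩
  by_contra hc
  refine hn (g2 n ?_)
  rintro ⟨u | u, rfl⟩
  · exact hc ⟨u, Or.inl rfl⟩
  · exact hc ⟨u, Or.inr rfl⟩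

/-- Among many labelled tuples two are exchanged by a finitary involution. -/
theorem exists_swap (α I κ : Type) [Finite I] [Finite κ] : ∃ N : ℕ,
    ∀ (c : Fin N → I → α) (lab : Fin N → κ), ∃ i j, i < j ∧ lab i = lab j ∧
      ∃ σ : Equiv.Perm α, (∀ n, σ (σ n) = n) ∧ (∀ k, σ (c i k) = c j k) ∧
        (∀ k, σ (c j k) = c i k) ∧ {n | σ n ≠ n}.Finite := by
  obtain ⟨N, hN⟩ := ramsey_sm (κ × (I ⊕ I → I ⊕ I → Prop)) 2 3
  refine ⟨N, fun c lab => ?_⟩
  obtain ⟨e, he, k⟩ := hN fun r => (lab (r 0), fun u v =>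
    Sum.elim (c (r 0)) (c (r 1)) u = Sum.elim (c (r 0)) (c (r 1)) v)
  have k1 := k ![0, 1] ![1, 2] (by decide) (by decide)
  have k2 := k ![0, 1] ![0, 2] (by decide) (by decide)
  have a1 := fun u v => iff_of_eq (congrFun (congrFun (congrArg Prod.snd k1) u) v)
  have a2 := fun u v => iff_of_eq (congrFun (congrFun (congrArg Prod.snd k2) u) v)
  have b : ∀ k l, c (e 0) k = c (e 1) l → c (e 1) k = c (e 0) l := fun k l h => by
    have h1 : c (e 1) k = c (e 2) l := (a1 (Sum.inl k) (Sum.inr l)).1 h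
    have h2 : c (e 0) k = c (e 2) l := (a2 (Sum.inl k) (Sum.inr l)).1 h
    have h3 : c (e 0) l = c (e 1) l := (a1 (Sum.inl l) (Sum.inr l)).2 (h.symm.trans h2)
    rw [h1, ← h2, h, h3]
  obtain ⟨σ, s1, s2, s3, s4⟩ := swap_of (c (e 0)) (c (e 1)) (by
    rintro (u | u) (v | v) h
    · exact (a1 (Sum.inl u) (Sum.inl v)).1 h
    · exact b _ _ h
    · exact (b _ _ h.symm).symm
    · exact (a1 (Sum.inl u) (Sum.inl v)).2 h)
  refine ⟨e 0, e 1, he (by decide), congrArg Prod.fst k1, σ, s1, s2, s3,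
    ((Set.finite_range (c (e 0))).union (Set.finite_range (c (e 1)))).subset fun n hn => ?_⟩
  obtain ⟨k, h | h⟩ := s4 n hn
  · exact Or.inl ⟨k, h.symm⟩
  · exact Or.inr ⟨k, h.symm⟩

theorem par_inv {L : FirstOrder.Language.{u, v}} {M : Type} [L.Structure M] {P : Set M}
    (e : M ≃[L] M) (he : ∀ a ∈ P, e a = a) {I : Type} {S : Set (I → M)} (hS : P.Definable L S)
    {x : I → M} (hx : x ∈ S) : e ∘ x ∈ S := by
  obtain ⟨φ, rfl⟩ := Set.definable_iff_exists_formula_sum.1 hS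
  have := (StrongHomClass.realize_formula e φ).2 hx
  refine (iff_of_eq (congrArg φ.Realize (funext ?_))).1 this
  rintro (i | i)
  · exact he i.1 i.2
  · rfl

/-- Automorphisms fixing the parameters act on an interpreted structure. -/
theorem interp_act {L₀ L : FirstOrder.Language.{0, 0}} {M B : Type} [L₀.Structure M]
    [L.Structure B] {P : Set M} (h : InterpF L₀ M P L B) : ∃ (d : ℕ) (c : B → Fin d → M),
      ∀ e : M ≃[L₀] M, (∀ a ∈ P, e a = a) → ∃ T : B ≃[L] B,
        (∀ b b', (∀ k, e (c b k) = c b' k) → T b = b') ∧ ((∀ a, e (e a) = a) → ∀ b, T (T b) = b) := by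
  obtain ⟨d, D, f, hf, hD, hE, hR, hF⟩ := h
  have hp : ∀ (e : M ≃[L₀] M) (he : ∀ a ∈ P, e a = a) {n : ℕ} (S : Set (Fin n → B)),
      P.Definable L₀ (pull f S) → ∀ x : Fin n → D, (fun i => f (x i)) ∈ S →
        (fun i => f ⟨e ∘ (x i).1, par_inv e he hD (x i).2⟩) ∈ S := by
    intro e he n S hS x hx
    obtain ⟨y, h1, h2⟩ := par_inv e he hS (x := fun p => (x p.1).1 p.2) ⟨x, fun _ _ => rfl, hx⟩
    have : y = fun i => ⟨e ∘ (x i).1, par_inv e he hD (x i).2⟩ :=
      funext fun i => Subtype.ext (funext fun k => (h1 i k).symm)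
    rwa [this] at h2
  let T : ∀ e : M ≃[L₀] M, (∀ a ∈ P, e a = a) → B → B := fun e he b =>
    f ⟨e ∘ (surjInv hf b).1, par_inv e he hD (surjInv hf b).2⟩
  have T1 : ∀ e he (x : D), T e he (f x) = f ⟨e ∘ x.1, par_inv e he hD x.2⟩ := fun e he x =>
    hp e he _ hE ![surjInv hf (f x), x] (surjInv_eq hf _)
  have T2 : ∀ e he e' he', (∀ a, e' (e a) = a) → ∀ b, T e' he' (T e he b) = b := by
    intro e he e' he' k b
    exact (T1 e' he' _).trans
      ((congrArg f (Subtype.ext (funext fun i => k _))).trans (surjInv_eq hf b))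
  have T3 : ∀ e he {n : ℕ} (S : Set (Fin n → B)), P.Definable L₀ (pull f S) → ∀ b ∈ S,
      T e he ∘ b ∈ S := fun e he n S hS b hb =>
    hp e he S hS (fun i => surjInv hf (b i)) (by simpa only [surjInv_eq] using hb)
  refine ⟨d, fun b => (surjInv hf b).1, fun e he => ?_⟩
  have he' : ∀ a ∈ P, e.symm a = a := fun a ha => by
    conv_lhs => rw [← he a ha]
    exact e.symm_apply_apply a
  refine ⟨⟨⟨T e he, T e.symm he', T2 e he _ he' e.symm_apply_apply,
    T2 _ he' e he e.apply_symm_apply⟩, fun F x => ?_, fun R x => ⟨fun k => ?_, T3 e he _ (hR _ R) x⟩⟩,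
    fun b b' k => ?_, T2 e he e he⟩
  · exact (T3 e he _ (hF _ F) (Fin.cons (funMap F x) x) rfl).symm
  · have := T3 _ he' _ (hR _ R) _ k
    refine (iff_of_eq (congrArg (RelMap R) (funext fun i => ?_))).1 this
    exact T2 e he _ he' e.symm_apply_apply _
  · exact (congrArg f (Subtype.ext (funext k))).trans (surjInv_eq hf b')

/-- Two unary and one ternary function symbol. -/
inductive FS : ℕ → Type
  | s : FS 1
  | p : FS 1
  | t : FS 3

/-- One unary relation symbol. -/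
inductive RS : ℕ → Type
  | r : RS 1

/-- The signature of the example. -/
def LL : FirstOrder.Language.{0, 0} := ⟨FS, RS⟩

theorem LL_finite : Finite LL.Symbols := by
  let g : Fin 4 → LL.Symbols :=
    ![Sum.inl ⟨1, FS.s⟩, Sum.inl ⟨1, FS.p⟩, Sum.inl ⟨3, FS.t⟩, Sum.inr ⟨1, RS.r⟩]
  refine Finite.of_surjective g ?_
  rintro (⟨_, _ | _ | _⟩ | ⟨_, ⟨⟩⟩)
  exacts [⟨0, rfl⟩, ⟨1, rfl⟩, ⟨2, rfl⟩, ⟨3, rfl⟩]

/-- The domain of the example. -/
def Cv : Type := ℚ × ℚ × Bool

instance : Countable Cv := inferInstanceAs (Countable (ℚ × ℚ × Bool))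

instance : Infinite Cv := inferInstanceAs (Infinite (ℚ × ℚ × Bool))

instance : DecidableEq Cv := inferInstanceAs (DecidableEq (ℚ × ℚ × Bool))

instance : LL.Structure Cv where
  funMap
    | FS.s => fun x => ((x 0).2.1, (x 0).1, xor (x 0).2.2 (decide ((x 0).2.1 < (x 0).1)))
    | FS.p => fun x => ((x 0).1, (x 0).1, false)
    | FS.t => fun x => if x 0 = x 1 then x 2 else x 0
  RelMap
    | RS.r => fun x => (x 0).1 ≠ (x 0).2.1

/-- The lift of a permutation of the vertices. -/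
def lf (τ : Equiv.Perm ℚ) : Cv ≃ Cv where
  toFun x := (τ x.1, τ x.2.1, xor x.2.2 (decide (x.2.1 < x.1) && decide (τ x.1 < τ x.2.1)))
  invFun x := (τ.symm x.1, τ.symm x.2.1,
    xor x.2.2 (decide (τ.symm x.2.1 < τ.symm x.1) && decide (x.1 < x.2.1)))
  left_inv x := by simp
  right_inv x := by simp

/-- The lift is an automorphism. -/
def lift (τ : Equiv.Perm ℚ) : Cv ≃[LL] Cv where
  toEquiv := lf τ
  map_fun' := by
    rintro _ (_ | _ | _) x
    · refine Prod.ext rfl (Prod.ext rfl ?_)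
      change xor (xor (x 0).2.2 (decide ((x 0).2.1 < (x 0).1)))
          (decide ((x 0).1 < (x 0).2.1) && decide (τ (x 0).2.1 < τ (x 0).1)) =
        xor (xor (x 0).2.2 (decide ((x 0).2.1 < (x 0).1) && decide (τ (x 0).1 < τ (x 0).2.1)))
          (decide (τ (x 0).2.1 < τ (x 0).1))
      rcases lt_trichotomy (x 0).1 (x 0).2.1 with h | h | h
      · simp [h, h.le]
      · simp [h]
      · rcases lt_or_gt_of_ne (τ.injective.ne h.ne) with k | k <;>
          simp [h, h.not_gt, k, k.not_gt]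
    · refine Prod.ext rfl (Prod.ext rfl ?_)
      change xor false (decide ((x 0).1 < (x 0).1) && _) = false
      simp
    · change lf τ (if x 0 = x 1 then x 2 else x 0) =
        if lf τ (x 0) = lf τ (x 1) then lf τ (x 2) else lf τ (x 0)
      simp only [EmbeddingLike.apply_eq_iff_eq]
      split_ifs <;> rfl
  map_rel' := by
    rintro _ ⟨⟩ x
    exact τ.injective.ne_iff

theorem lift_eq {τ : Equiv.Perm ℚ} {x y : Cv} (h1 : τ x.1 = y.1) (h2 : τ x.2.1 = y.2.1)
    (h3 : x.2.2 = y.2.2) (h4 : x.2.1 < x.1 → y.2.1 ≤ y.1) : lift τ x = y := by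
  refine Prod.ext h1 (Prod.ext h2 ?_)
  change xor x.2.2 (decide (x.2.1 < x.1) && decide (τ x.1 < τ x.2.1)) = y.2.2
  rw [h1, h2, h3]
  by_cases h : x.2.1 < x.1
  · simp [(h4 h).not_gt]
  · simp [h]

end Pool.Agent.Lib.MP_905f9a_lc.Fn
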