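import Pool.Agent.Lib.MP_905f9a_lc.D.Defs

namespace Pool.Agent.Lib.MP_905f9a_lc.Fn

open FirstOrder FirstOrder.Language

universe u v u' v'

/-- The `L`-structure `A` (function symbols allowed) has a first-order interpretation in the
`L₀`-structure `M` whose defining formulas use only parameters from `P`. -/
def InterpF (L₀ : FirstOrder.Language.{u', v'}) (M : Type) [L₀.Structure M] (P : Set M)
    (L : FirstOrder.Language.{u, v}) (A : Type) [L.Structure A] : Prop :=
  ∃ (d : ℕ) (D : Set (Fin d → M)) (f : D → A), Function.Surjective f ∧ P.Definable L₀ D ∧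
    P.Definable L₀ (pull f {a : Fin 2 → A | a 0 = a 1}) ∧
    (∀ (n : ℕ) (R : L.Relations n), P.Definable L₀ (pull f {a | Structure.RelMap R a})) ∧
    ∀ (n : ℕ) (F : L.Functions n), P.Definable L₀
      (pull f {a : Fin (n + 1) → A | Structure.funMap F (Fin.tail a) = a 0})

/-- Lachlan's class for arbitrary signatures: `A` is `ω`-categorical and `ω`-stable, and every
strictly minimal structure interpretable in `A` with parameters is bidefinable with a pure set. -/
def InDF (L : FirstOrder.Language.{u, v}) (A : Type) [L.Structure A] : Prop :=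
  D.IsOmegaCat L A ∧ D.IsOmegaStable L A ∧
    ∀ (L' : FirstOrder.Language.{0, 0}) (X : Type) [L'.Structure X] (P : Finset A),
      InterpF L A (P : Set A) L' X → D.IsStronglyMinimal L' X → D.IsPrimitive L' X →
      ∃ (E : Type) (_ : FirstOrder.Language.empty.Structure E),
        D.Bidef L' X FirstOrder.Language.empty E

end Pool.Agent.Lib.MP_905f9a_lc.Fn
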