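import Mathlib

/-! Minimal permutation groups with many exchanges have trivial closure. -/

namespace Pool.Agent.Lib.MP_905f9a_lc.Fn

open Function Set

variable {D : Type} {H : Subgroup (Equiv.Perm D)} {F G : Set D} {a b : D} {σ : Equiv.Perm D}

variable (H) in
/-- The points with finite orbit under the pointwise stabilizer. -/
def cl (F : Set D) : Set D := {a | {b | ∃ σ ∈ H, (∀ x ∈ F, σ x = x) ∧ σ a = b}.Finite}

variable (H) in
/-- Over every finite set all but finitely many points are conjugate. -/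
structure Mn : Prop where
  inf : Infinite D
  m1 : ∀ F : Set D, F.Finite → ∀ a ∉ cl H F, ∀ b ∉ cl H F, ∃ σ ∈ H, (∀ x ∈ F, σ x = x) ∧ σ a = b
  m2 : ∀ F : Set D, F.Finite → (cl H F).Finite

theorem subset_cl : F ⊆ cl H F := fun a ha => (finite_singleton a).subset (by
  rintro _ ⟨σ, -, h, rfl⟩
  exact h a ha)

theorem cl_mono (h : F ⊆ G) : cl H F ⊆ cl H G := fun _ ha => Finite.subset ha (by
  rintro _ ⟨σ, h1, h2, rfl⟩
  exact ⟨σ, h1, fun x hx => h2 x (h hx), rfl⟩)

theorem cl_conj (hσ : σ ∈ H) (h : ∀ x ∈ F, σ x ∈ G) (ha : a ∈ cl H F) : σ a ∈ cl H G :=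
  (Finite.image σ ha).subset (by
    rintro _ ⟨τ, h1, h2, rfl⟩
    refine ⟨_, ⟨σ⁻¹ * τ * σ, H.mul_mem (H.mul_mem (H.inv_mem hσ) h1) hσ, fun x hx => ?_, rfl⟩, ?_⟩
    · simp [h2 _ (h x hx)]
    · simp)

theorem Mn.gen (h : Mn H) (hF : F.Finite) : ∃ a, a ∉ cl H F := by
  have := h.inf
  exact (h.m2 F hF).exists_notMem

theorem Mn.cl_cl (h : Mn H) (hF : F.Finite) (hG : G ⊆ cl H F) : cl H G ⊆ cl H F := by
  intro c hc
  by_contra hn
  obtain ⟨c', hc'⟩ := h.gen (h.m2 F hF)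
  obtain ⟨σ, h1, h2, rfl⟩ := h.m1 F hF c hn c' fun k => hc' (subset_cl k)
  exact hc' (cl_conj h1 (fun x hx => cl_conj h1 (fun y hy => (h2 y hy).symm ▸ hy) (hG hx)) hc)

theorem Mn.exch (h : Mn H) (hF : F.Finite) (h1 : a ∈ cl H (insert b F)) (h2 : a ∉ cl H F) :
    b ∈ cl H (insert a F) := by
  by_contra h3
  have := h.inf
  obtain ⟨E, e1, e2, e3⟩ := (h.m2 F hF).infinite_compl.exists_subset_ncard_eq
    ((cl H (insert b F)).ncard + 1)
  obtain ⟨b', hb'⟩ := h.gen (hF.union e2)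
  obtain ⟨ρ, r1, r2, r3⟩ := h.m1 F hF b' (fun k => hb' (cl_mono subset_union_left k)) b
    fun k => h3 (cl_mono (subset_insert _ _) k)
  have : ρ '' E ⊆ cl H (insert b F) := by
    rintro _ ⟨c, hc, rfl⟩
    obtain ⟨σ, s1, s2, rfl⟩ := h.m1 F hF a h2 c (e1 hc)
    obtain ⟨τ, t1, t2, t3⟩ := h.m1 _ (hF.insert (σ a)) (σ b) (fun k => h3 (by
      have := cl_conj (G := insert a F) (H.inv_mem s1) (by
        rintro x (rfl | hx)
        · simp
        · exact Or.inr (by rwa [Equiv.Perm.inv_eq_iff_eq.2 (s2 x hx).symm])) k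
      simpa using this)) b' fun k =>
        hb' (cl_mono (insert_subset (mem_union_right _ hc) subset_union_left) k)
    have := cl_conj (G := insert b F) (H.mul_mem r1 (H.mul_mem t1 s1)) (by
      rintro x (rfl | hx)
      · exact Or.inl (by simp [t3, r3])
      · exact Or.inr (by simpa [s2 x hx, t2 x (Or.inr hx), r2 x hx] using hx)) h1
    simpa [t2 _ (Or.inl rfl)] using this
  have k := ncard_le_ncard this (h.m2 _ (hF.insert b))
  rw [ncard_image_of_injective _ ρ.injective, e3] at k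
  omega

theorem Mn.build (h : Mn H) (hF : F.Finite) {e : D} (h1 : e ∈ cl H (insert a (insert b F)))
    (h2 : e ∉ cl H (insert b F)) (h3 : e ∉ cl H (insert a F)) (ha : a ∉ cl H (insert b F))
    (hb : b ∉ cl H F) (d : ℕ → D) (n : ℕ) (hd : ∀ j ≤ n, d j ∉ cl H (F ∪ d '' Iio j)) :
    ∃ x ∈ cl H (F ∪ d '' Iic n), ∀ i ≤ n, x ∉ cl H (F ∪ d '' (Iic n \ {i})) := by
  induction n with
  | zero =>
    refine ⟨d 0, subset_cl (Or.inr ⟨0, self_mem_Iic, rfl⟩), fun i hi k => hd 0 le_rfl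
      (cl_mono (union_subset_union_right _ (image_mono ?_)) k)⟩
    rintro j ⟨j1, j2⟩
    exact absurd ((Nat.le_zero.1 j1).trans (Nat.le_zero.1 hi).symm) j2
  | succ n ih =>
    obtain ⟨x, x1, x2⟩ := ih fun j hj => hd j (hj.trans n.le_succ)
    have fin : ∀ S : Set ℕ, S ⊆ Iic (n + 1) → (F ∪ d '' S).Finite := fun S hS =>
      hF.union (((finite_Iic _).subset hS).image _)
    have g : d (n + 1) ∉ cl H (F ∪ d '' Iic n) := fun k => hd (n + 1) le_rfl
      (cl_mono (union_subset_union_right _ (image_mono fun j hj => Nat.lt_succ_of_le hj)) k)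
    have f0 := fin (Iic n) (Iic_subset_Iic.2 n.le_succ)
    have sF : ∀ G, F ⊆ cl H (F ∪ G) := fun G => subset_union_left.trans subset_cl
    obtain ⟨σ, s1, s2, rfl⟩ := h.m1 F hF b hb x fun k =>
      x2 0 n.zero_le (cl_mono subset_union_left k)
    obtain ⟨τ, t1, t2, t3⟩ := h.m1 _ (hF.insert (σ b)) (σ a) (fun k => ha (by
      have := cl_conj (G := insert b F) (H.inv_mem s1) (by
        rintro x (rfl | hx)
        · simp
        · exact Or.inr (by rwa [Equiv.Perm.inv_eq_iff_eq.2 (s2 x hx).symm])) k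
      simpa using this)) (d (n + 1)) fun k => g (h.cl_cl f0 (insert_subset x1 (sF _)) k)
    have m := H.mul_mem t1 s1
    have ea : (τ * σ) a = d (n + 1) := t3
    have eb : (τ * σ) b = σ b := t2 _ (Or.inl rfl)
    have eF : ∀ y ∈ F, (τ * σ) y = y := fun y hy => by
      rw [Equiv.Perm.mul_apply, s2 y hy, t2 y (Or.inr hy)]
    generalize τ * σ = ρ at m ea eb eF
    generalize σ b = x at x1 x2 eb
    have y1 : ρ e ∈ cl H (insert (d (n + 1)) (insert x F)) := cl_conj m (by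
      rintro y (rfl | rfl | hy)
      exacts [Or.inl ea, Or.inr (Or.inl eb), Or.inr (Or.inr ((eF y hy).symm ▸ hy))]) h1
    have back : ∀ c, e ∉ cl H (insert c F) → ρ e ∉ cl H (insert (ρ c) F) := fun c hc k => hc (by
      have := cl_conj (G := insert c F) (H.inv_mem m) (by
        rintro y (rfl | hy)
        · simp
        · exact Or.inr (by rwa [Equiv.Perm.inv_eq_iff_eq.2 (eF y hy).symm])) k
      simpa using this)
    have y2 := eb ▸ back b h2
    have y3 := ea ▸ back a h3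
    refine ⟨ρ e, h.cl_cl (fin _ subset_rfl) (insert_subset
      (subset_cl (Or.inr ⟨_, self_mem_Iic, rfl⟩)) (insert_subset (cl_mono (union_subset_union_right _ (image_mono
        (Iic_subset_Iic.2 n.le_succ))) x1) (sF _))) y1, fun i hi k => g ?_⟩
    rcases Nat.le_succ_iff.1 hi with hi | rfl
    · have z1 := h.exch (hF.insert _) (insert_comm _ _ F ▸ y1) y3
      have z2 := h.cl_cl (fin _ sdiff_subset) (insert_subset k (insert_subset
        (subset_cl (Or.inr ⟨_, ⟨self_mem_Iic, (Nat.lt_succ_of_le hi).ne'⟩, rfl⟩)) (sF _))) z1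
      have z3 := h.exch (b := d (n + 1))
        (fin (Iic n \ {i}) (sdiff_subset.trans (Iic_subset_Iic.2 n.le_succ))) (cl_mono (by
          rintro y (hy | ⟨j, ⟨j1, j2⟩, rfl⟩)
          · exact Or.inr (Or.inl hy)
          · rcases Nat.le_succ_iff.1 j1 with j1 | rfl
            exacts [Or.inr (Or.inr ⟨j, ⟨j1, j2⟩, rfl⟩), Or.inl rfl]) z2) (x2 i hi)
      exact h.cl_cl f0 (insert_subset x1 ((union_subset_union_right _
        (image_mono sdiff_subset)).trans subset_cl)) z3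
    · refine h.cl_cl f0 (insert_subset (cl_mono (union_subset_union_right _ (image_mono ?_)) k)
        (insert_subset x1 (sF _))) (h.exch (hF.insert x) y1 y2)
      rintro j ⟨j1, j2⟩
      exact (Nat.le_succ_iff.1 j1).resolve_right j2

theorem Mn.triv (h : Mn H) (tr : ∀ x y, ∃ σ ∈ H, σ x = y)
    (pr : ∀ r : Setoid D, (∀ σ ∈ H, ∀ x y, r x y → r (σ x) (σ y)) → r = ⊥ ∨ r = ⊤) {m : ℕ}
    (sw : ∀ F : Set D, F.Finite → ∀ d : ℕ → D, ∃ e : ℕ → ℕ,
      (∀ i j, i < j → j ≤ 2 * m + 1 → e i < e j) ∧ ∀ x : D, ∃ i ≤ m, ∃ k, m < k ∧ k ≤ 2 * m + 1 ∧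
        ∃ σ ∈ H, (∀ y ∈ F, σ y = y) ∧ σ x = x ∧ (∀ j ≤ m, j ≠ i → σ (d (e j)) = d (e j)) ∧
          σ (d (e i)) = d (e k)) (hF : F.Finite) : cl H F ⊆ F := by
  have := h.inf
  have c0 : ∀ a, a ∉ cl H ∅ := fun a k => infinite_univ (α := D) (Finite.subset k fun b _ => by
    obtain ⟨σ, h1, h2⟩ := tr a b
    exact ⟨σ, h1, fun _ hx => hx.elim, h2⟩)
  have c1 : ∀ a, cl H {a} ⊆ {a} := by
    rcases pr ⟨fun x y => y ∈ cl H {x}, fun x => subset_cl rfl, fun {x y} k => by
        simpa using h.exch (a := y) (b := x) finite_empty (by simpa using k) (c0 y),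
      fun {x y z} k k' => h.cl_cl (finite_singleton x) (singleton_subset_iff.2 k) k'⟩
      (fun σ hσ x y k => cl_conj hσ (fun z hz => congrArg σ hz) k) with k | k
    · intro a b hb
      exact ((Setoid.ext_iff.1 k a b).1 hb).symm
    · intro a
      obtain ⟨b, hb⟩ := h.gen (finite_singleton a)
      exact absurd ((Setoid.ext_iff.1 k a b).2 trivial) hb
  induction hn : F.ncard using Nat.strong_induction_on generalizing F with
  | _ n ih =>
    rcases F.subsingleton_or_nontrivial with hs | ⟨a, ha, b, hb, hab⟩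
    · rcases hs.eq_empty_or_singleton with rfl | ⟨a, rfl⟩
      exacts [fun a k => (c0 a k).elim, c1 a]
    intro e he
    by_contra hn'
    have ih' : ∀ G, G ⊆ F → ∀ c ∈ F, c ∉ G → ∀ x, x ∉ G → x ∉ cl H G := fun G hG c h1 h2 x hx k =>
      hx (ih _ (hn ▸ ncard_lt_ncard ⟨hG, fun j => h2 (j h1)⟩ hF) (hF.subset hG) rfl k)
    have f0 : (F \ {a, b}).Finite := hF.subset sdiff_subset
    have sb : insert b (F \ {a, b}) ⊆ F := insert_subset hb sdiff_subset
    have sa : insert a (F \ {a, b}) ⊆ F := insert_subset ha sdiff_subset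
    have na : a ∉ insert b (F \ {a, b}) := by simp [hab]
    have nb : b ∉ insert a (F \ {a, b}) := by simp [hab.symm]
    obtain ⟨d, hd⟩ := seq_of_forall_finite_exists
      (P := fun c t => c ∉ cl H (F \ {a, b} ∪ t)) fun t ht => h.gen (f0.union ht)
    obtain ⟨s, s1, s2⟩ := sw _ f0 d
    have hd' : ∀ j ≤ 2 * m + 1, (d ∘ s) j ∉ cl H (F \ {a, b} ∪ (d ∘ s) '' Iio j) :=
      fun j hj k => hd (s j) (cl_mono (union_subset_union_right _ (by
        rintro _ ⟨i, hi, rfl⟩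
        exact ⟨s i, s1 i j hi hj, rfl⟩)) k)
    obtain ⟨x, x1, x2⟩ := h.build (a := a) (b := b) f0 (cl_mono (fun y hy => by
        by_cases h1 : y = a <;> by_cases h2 : y = b <;> simp [h1, h2, hy]) he)
      (ih' _ sb a ha na e fun k => hn' (sb k)) (ih' _ sa b hb nb e fun k => hn' (sa k))
      (ih' _ sb a ha na a na) (ih' _ sdiff_subset a ha (by simp) b (by simp)) (d ∘ s) m
      fun j hj => hd' j (by omega)
    obtain ⟨i, hi, k, k1, k2, σ, t1, t2, t3, t4, t5⟩ := s2 x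
    have f1 : ∀ S : Set ℕ, S ⊆ Iic m → (F \ {a, b} ∪ (d ∘ s) '' S).Finite := fun S hS =>
      f0.union (((finite_Iic _).subset hS).image _)
    have z1 := h.exch (b := d (s i)) (f1 _ sdiff_subset) (cl_mono (by
      rintro y (hy | ⟨j, hj, rfl⟩)
      · exact Or.inr (Or.inl hy)
      · by_cases e : j = i
        exacts [Or.inl (e ▸ rfl), Or.inr (Or.inr ⟨j, ⟨hj, e⟩, rfl⟩)]) x1) (x2 i hi)
    have z2 := cl_conj (G := cl H (F \ {a, b} ∪ (d ∘ s) '' Iic m)) t1 (by
      rintro y (rfl | hy | ⟨j, ⟨j1, j2⟩, rfl⟩)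
      · rwa [t3]
      · exact subset_cl (Or.inl ((t2 y hy).symm ▸ hy))
      · exact subset_cl (Or.inr ⟨j, j1, (t4 j j1 j2).symm⟩)) z1
    rw [t5] at z2
    exact hd' k k2 (cl_mono (union_subset_union_right _ (image_mono fun j hj =>
      lt_of_le_of_lt hj k1)) (h.cl_cl (f1 _ subset_rfl) subset_rfl z2))

theorem Mn.htr (h : Mn H) (ht : ∀ F : Set D, F.Finite → cl H F ⊆ F) {n : ℕ} (x y : Fin n → D)
    (e : ∀ i j, x i = x j ↔ y i = y j) : ∃ σ ∈ H, σ ∘ x = y := by
  induction n with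
  | zero => exact ⟨1, H.one_mem, Subsingleton.elim _ _⟩
  | succ n ih =>
    obtain ⟨σ, s1, s2⟩ := ih (Fin.tail x) (Fin.tail y) fun i j => e _ _
    by_cases k : ∃ i : Fin n, x 0 = x i.succ
    · obtain ⟨i, k⟩ := k
      refine ⟨σ, s1, funext fun j => Fin.cases ?_ (fun j => congrFun s2 j) j⟩
      exact ((congrArg σ k).trans (congrFun s2 i)).trans ((e _ _).1 k).symm
    · obtain ⟨τ, t1, t2, t3⟩ := h.m1 _ (finite_range (Fin.tail y)) (σ (x 0))
        (fun j => by
          obtain ⟨i, hi⟩ := ht _ (finite_range _) j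
          exact k ⟨i, σ.injective (hi.symm.trans (congrFun s2 i).symm)⟩) (y 0) fun j => by
          obtain ⟨i, hi⟩ := ht _ (finite_range _) j
          exact k ⟨i, (e _ _).2 hi.symm⟩
      refine ⟨τ * σ, H.mul_mem t1 s1, funext fun j => Fin.cases t3 (fun j => ?_) j⟩
      exact (congrArg τ (congrFun s2 j)).trans (t2 _ ⟨j, rfl⟩)

end Pool.Agent.Lib.MP_905f9a_lc.Fn
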