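import Pool.Agent.Lib.MP_905f9a_lc.Fn.Cover
import Pool.Agent.Lib.MP_905f9a_lc.Fn.BF
import Pool.Agent.Lib.MP_905f9a_lc.Fn.Geo

/-! The cover lies in Lachlan's class. -/

namespace Pool.Agent.Lib.MP_905f9a_lc.Fn

open FirstOrder FirstOrder.Language FirstOrder.Language.Structure Function Set

theorem ext_perm {α I : Type} [Finite I] (x y : I → α) (h : ∀ i j, x i = x j ↔ y i = y j) :
    ∃ τ : Equiv.Perm α, ∀ i, τ (x i) = y i := by
  obtain ⟨τ, hτ⟩ := Equiv.Perm.exists_extending_pair (fun z : range x => z.1)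
    (fun z => y z.2.choose) Subtype.val_injective (fun z w e => Subtype.ext
      (z.2.choose_spec.symm.trans (((h _ _).2 e).trans w.2.choose_spec)))
  exact ⟨τ, fun i => (hτ ⟨x i, i, rfl⟩).trans
    ((h _ _).1 (Exists.choose_spec (⟨i, rfl⟩ : x i ∈ range x)))⟩

/-- The two vertices of a point. -/
def vx {I : Type} (x : I → Cv) (k : I × Bool) : ℚ := if k.2 then (x k.1).1 else (x k.1).2.1

/-- The finite data of a tuple. -/
def lb {I : Type} (x : I → Cv) (i : I) : Bool × Prop := ((x i).2.2, (x i).2.1 < (x i).1)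

theorem lift_tup {I : Type} {x y : I → Cv} {τ : Equiv.Perm ℚ} (h : ∀ k, τ (vx x k) = vx y k)
    (l : lb x = lb y) (i : I) : lift τ (x i) = y i :=
  lift_eq (h (i, true)) (h (i, false)) (congrArg Prod.fst (congrFun l i))
    fun k => ((iff_of_eq (congrArg Prod.snd (congrFun l i))).1 k).le

theorem cv_olig : Olig LL Cv := by
  intro I _
  refine ⟨(I → Bool × Prop) × (I × Bool → I × Bool → Prop), inferInstance,
    fun x => (lb x, fun k l => vx x k = vx x l), fun x y h => ?_⟩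
  obtain ⟨τ, hτ⟩ := ext_perm (vx x) (vx y) fun k l =>
    iff_of_eq (congrFun (congrFun (congrArg Prod.snd h) k) l)
  exact ⟨lift τ, funext (lift_tup hτ (congrArg Prod.fst h))⟩

/-- Countably many data decide the definable sets in an ultrafilter. -/
theorem uf_data (n : ℕ) : ∃ (κ : Type) (_ : Countable κ) (δ : Ultrafilter (Fin n → Cv) → κ),
    ∀ U U', δ U = δ U' → ∀ S, (univ : Set Cv).Definable LL S → S ∈ U → S ∈ U' := by
  classical
  let col : (Fin n → Cv) → (Fin n → Bool × Prop) × (Fin n × Bool → Fin n × Bool → Prop) :=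
    fun x => (lb x, fun k l => vx x k = vx x l)
  choose c0 hc0 using fun U : Ultrafilter (Fin n → Cv) => (U.map col).eq_pure_of_finite
  let lm : Ultrafilter (Fin n → Cv) → Fin n × Bool → Option ℚ := fun U k =>
    if h : ∃ q, {x | vx x k = q} ∈ U then some h.choose else none
  have big : ∀ (U : Ultrafilter (Fin n → Cv)) (W : Set ℚ), W.Finite →
      {x | col x = c0 U ∧ ∀ k, ∀ w ∈ W, vx x k = w ↔ lm U k = some w} ∈ U := by
    intro U W hW
    refine Filter.inter_mem (s := {x | col x = c0 U}) ?_ (Filter.eventually_all.2 fun k =>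
      (Filter.eventually_all_finite hW).2 fun w _ => ?_)
    · have : {c0 U} ∈ U.map col := hc0 U ▸ Ultrafilter.mem_pure.2 rfl
      exact this
    · by_cases h : ∃ q, {x | vx x k = q} ∈ U
      · filter_upwards [h.choose_spec] with x hx
        simp only [lm, dif_pos h, Option.some.injEq, hx]
      · filter_upwards [Ultrafilter.compl_mem_iff_notMem.2 fun j => h ⟨w, j⟩] with x hx
        simp only [lm, dif_neg h, reduceCtorEq, iff_false]
        exact hx
  refine ⟨_, inferInstance, fun U => (c0 U, lm U), fun U U' h S hS hU => ?_⟩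
  by_contra hU'
  obtain ⟨F, -, hF⟩ := definable_iff_finitely_definable.1 hS
  let W := range (vx (Subtype.val : F → Cv))
  obtain ⟨x, x1, x2, x3⟩ := U.nonempty_of_mem (Filter.inter_mem hU (big U W (finite_range _)))
  obtain ⟨y, y1, y2, y3⟩ := U'.nonempty_of_mem (Filter.inter_mem
    (Ultrafilter.compl_mem_iff_notMem.2 hU') (big U' W (finite_range _)))
  have e1 : col x = col y := x2.trans ((congrArg Prod.fst h).trans y2.symm)
  have e2 : ∀ k, ∀ w ∈ W, vx x k = w ↔ vx y k = w := fun k w hw =>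
    (x3 k w hw).trans (((iff_of_eq (congrArg (fun z => z.2 k = some w) h))).trans (y3 k w hw).symm)
  obtain ⟨τ, hτ⟩ := ext_perm (Sum.elim (vx x) (Subtype.val : W → ℚ)) (Sum.elim (vx y) Subtype.val)
    (by
      rintro (k | k) (l | l)
      · exact iff_of_eq (congrFun (congrFun (congrArg Prod.snd e1) k) l)
      · exact e2 k _ l.2
      · exact eq_comm.trans ((e2 l _ k.2).trans eq_comm)
      · rfl)
  refine y1 ((iff_of_eq (congrArg (· ∈ S) (funext (lift_tup (fun k => hτ (Sum.inl k))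
    (congrArg Prod.fst e1))))).1 (par_inv (lift τ) (fun a ha => ?_) hF x1))
  exact lift_tup (x := (Subtype.val : F → Cv)) (y := Subtype.val)
    (fun k => hτ (Sum.inr ⟨_, k, rfl⟩)) rfl ⟨a, ha⟩

theorem cv_ostable : D.IsOmegaStable LL Cv := by
  intro M _ hM B hB n
  have := hM.infinite
  have := LL_finite
  obtain ⟨S, s1, s2⟩ := exists_elementarySubstructure_card_eq LL B Cardinal.aleph0.{0} le_rfl
    (by simpa using hB) (by
      rw [Cardinal.lift_id, Cardinal.lift_id]
      exact Cardinal.mk_le_aleph0)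
    (by simp)
  have : Countable S := Cardinal.mk_le_aleph0_iff.1 (by simpa using s2.le)
  obtain ⟨e, -⟩ := cv_olig.bf (M := Cv) (N := S) rfl (hM.trans S.elementarilyEquivalent.symm)
    (I := Empty) (x := default) (y := default) fun φ =>
      ((hM.trans S.elementarilyEquivalent.symm).realize_sentence φ).1
  let j := S.subtype.comp e.toElementaryEmbedding
  let b : B → Cv := fun x => e.symm ⟨x.1, s1 x.2⟩
  have hb : j ∘ b = Subtype.val := funext fun x => congrArg Subtype.val (e.apply_symm_apply _)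
  let Z : LL[[B]].Formula (Fin n) → Set (Fin n → Cv) := fun φ => {x | φ.Realize (j ∘ x)}
  have hZ : ∀ φ, ∃ ψ : LL.Formula (B ⊕ Fin n), (∀ x : Fin n → M,
      φ.Realize x ↔ ψ.Realize (Sum.elim Subtype.val x)) ∧
        Z φ = {x | ψ.Realize (Sum.elim b x)} := fun φ => by
    obtain ⟨ψ, hψ⟩ := definable_iff_exists_formula_sum.1 (⟨φ, rfl⟩ : B.Definable LL _)
    refine ⟨ψ, Set.ext_iff.1 hψ, Set.ext fun x => (Set.ext_iff.1 hψ _).trans ?_⟩
    rw [mem_ofPred_eq, mem_ofPred_eq, ← j.map_formula, Sum.comp_elim, hb]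
  have uf : ∀ p : (LL[[B]].completeTheory M).CompleteType (Fin n), ∃ U : Ultrafilter (Fin n → Cv),
      ∀ φ, Formula.equivSentence φ ∈ p → Z φ ∈ U := by
    intro p
    obtain ⟨N, y, hy⟩ := Theory.exists_modelType_is_realized_in _ p
    have hN : M ≅[LL[[B]]] N := elementarilyEquivalent_iff.2 fun φ =>
      (realize_iff_of_model_completeTheory M N φ).symm
    let G : Filter (Fin n → Cv) :=
      { sets := {T | ∃ φ : LL[[B]].Formula (Fin n), φ.Realize y ∧ Z φ ⊆ T}
        univ_sets := ⟨⊤, Formula.realize_top.2 trivial, subset_univ _⟩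
        sets_of_superset := fun ⟨φ, h1, h2⟩ k => ⟨φ, h1, h2.trans k⟩
        inter_sets := fun ⟨φ, h1, h2⟩ ⟨ψ, k1, k2⟩ => ⟨φ ⊓ ψ, Formula.realize_inf.2 ⟨h1, k1⟩,
          fun x hx => ⟨h2 (Formula.realize_inf.1 hx).1, k2 (Formula.realize_inf.1 hx).2⟩⟩ }
    have : G.NeBot := Filter.forall_mem_nonempty_iff_neBot.1 (by
      rintro T ⟨φ, h1, h2⟩
      obtain ⟨ψ, k1, k2⟩ := hZ φ
      obtain ⟨x, hx⟩ : ∃ x : Fin n → M, φ.Realize x := by
        by_contra! hn
        exact Formula.realize_not.1 (all_tr hN (φ := φ.not)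
          (fun x => Formula.realize_not.2 (hn x)) y) h1
      have := Formula.realize_iExs.2 ⟨x, (k1 x).1 hx⟩
      rw [← hb, j.map_formula] at this
      obtain ⟨z, hz⟩ := Formula.realize_iExs.1 this
      exact ⟨z, h2 (k2 ▸ hz)⟩)
    refine ⟨Ultrafilter.of G, fun φ hφ => Ultrafilter.of_le G ⟨φ, ?_, subset_rfl⟩⟩
    exact Theory.CompleteType.formula_mem_typeOf.1 (hy ▸ hφ)
  choose U hU using uf
  obtain ⟨κ, _, δ, hδ⟩ := uf_data n
  have key : ∀ p q, δ (U p) = δ (U q) → ∀ φ ∈ p, φ ∈ q := fun p q h φ hφ => by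
    obtain ⟨φ, rfl⟩ := Formula.equivSentence.surjective φ
    obtain ⟨ψ, -, k2⟩ := hZ φ
    have := hδ _ _ h (Z φ) (k2 ▸ definable_iff_exists_formula_sum.2
      ⟨ψ.relabel (Sum.map (fun x => ⟨b x, trivial⟩) id), Set.ext fun x => by
        simp only [mem_ofPred_eq, Formula.realize_relabel, Sum.elim_comp_map, comp_id]
        rfl⟩) (hU p φ hφ)
    refine (q.mem_or_not_mem _).resolve_right fun k => ?_
    obtain ⟨x, h1, h2⟩ := (U q).nonempty_of_mem (Filter.inter_mem this (hU q φ.not k))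
    exact Formula.realize_not.1 h2 h1
  exact Injective.countable (f := fun p => δ (U p)) fun p q h =>
    SetLike.ext fun φ => ⟨key p q h φ, key q p h.symm φ⟩

theorem delta {α I κ : Type} [Finite I] [Finite κ] (n : ℕ) (c : ℕ → I → α) (lab : ℕ → κ) :
    ∃ e : ℕ → ℕ, (∀ i j, i < j → j ≤ n → e i < e j) ∧
      (∀ i ≤ n, ∀ j ≤ n, lab (e i) = lab (e j) ∧
        ∀ k l, c (e i) k = c (e i) l → c (e j) k = c (e j) l) ∧
      ∀ i ≤ n, ∀ j ≤ n, i ≠ j → ∀ k l, c (e i) k = c (e j) l →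
        ∀ i' ≤ n, ∀ j' ≤ n, c (e i') k = c (e j') k := by
  obtain ⟨N, hN⟩ := ramsey_sm (κ × (I ⊕ I → I ⊕ I → Prop)) 2 (n + 3)
  obtain ⟨e, he, k⟩ := hN fun r => (lab (r 0), fun u v =>
    Sum.elim (c (r 0)) (c (r 1)) u = Sum.elim (c (r 0)) (c (r 1)) v)
  let E : ℕ → ℕ := fun i => e (Fin.ofNat _ i)
  have lt : ∀ i j, i < j → j ≤ n + 2 → Fin.ofNat (n + 3) i < Fin.ofNat (n + 3) j :=
    fun i j h1 h2 => by
      rwa [Fin.lt_def, Fin.val_ofNat, Fin.val_ofNat, Nat.mod_eq_of_lt (by omega),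
        Nat.mod_eq_of_lt (by omega)]
  have hk : ∀ i j, i < j → j ≤ n + 2 → ∀ i' j', i' < j' → j' ≤ n + 2 →
      lab (E i) = lab (E i') ∧ ∀ u v, Sum.elim (c (E i)) (c (E j)) u =
        Sum.elim (c (E i)) (c (E j)) v →
          Sum.elim (c (E i')) (c (E j')) u = Sum.elim (c (E i')) (c (E j')) v := by
    intro i j h1 h2 i' j' h3 h4
    have := k ![Fin.ofNat _ i, Fin.ofNat _ j] ![Fin.ofNat _ i', Fin.ofNat _ j']
      (Fin.strictMono_iff_lt_succ.2 fun r => by fin_cases r; exact lt i j h1 h2)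
      (Fin.strictMono_iff_lt_succ.2 fun r => by fin_cases r; exact lt i' j' h3 h4)
    exact ⟨congrArg Prod.fst this, fun u v =>
      (iff_of_eq (congrFun (congrFun (congrArg Prod.snd this) u) v)).1⟩
  have cst : ∀ k i j, i < j → j ≤ n + 2 → c (E i) k = c (E j) k →
      ∀ i' ≤ n, ∀ j' ≤ n, c (E i') k = c (E j') k := fun k i j h1 h2 h i' hi j' hj =>
    ((hk i j h1 h2 i' (n + 1) (by omega) (by omega)).2 (Sum.inl k) (Sum.inr k) h).trans
      ((hk i j h1 h2 j' (n + 1) (by omega) (by omega)).2 (Sum.inl k) (Sum.inr k) h).symm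
  refine ⟨E, fun i j h1 h2 => he (lt i j h1 (by omega)), fun i hi j hj => ?_,
    fun i hi j hj h k l hc => ?_⟩
  · have := hk i (n + 1) (by omega) (by omega) j (n + 1) (by omega) (by omega)
    exact ⟨this.1, fun k l => this.2 (Sum.inl k) (Sum.inl l)⟩
  · rcases lt_or_gt_of_ne h with h | h
    · exact cst k 0 1 one_pos (by omega)
        (((hk i j h (by omega) 0 2 two_pos (by omega)).2 (Sum.inl k) (Sum.inr l) hc).trans
          ((hk i j h (by omega) 1 2 one_lt_two (by omega)).2 (Sum.inl k) (Sum.inr l) hc).symm)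
    · exact cst k 1 2 one_lt_two (by omega)
        (((hk j i h (by omega) 0 1 one_pos (by omega)).2 (Sum.inr k) (Sum.inl l) hc).trans
          ((hk j i h (by omega) 0 2 two_pos (by omega)).2 (Sum.inr k) (Sum.inl l) hc).symm)

/-- The automorphisms as permutations. -/
def AutP (L : FirstOrder.Language.{0, 0}) (X : Type) [L.Structure X] :
    Subgroup (Equiv.Perm X) where
  carrier := {σ | ∃ e : X ≃[L] X, e.toEquiv = σ}
  mul_mem' := by
    rintro _ _ ⟨e, rfl⟩ ⟨e', rfl⟩
    exact ⟨e.comp e', rfl⟩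
  one_mem' := ⟨FirstOrder.Language.Equiv.refl L X, rfl⟩
  inv_mem' := by
    rintro _ ⟨e, rfl⟩
    exact ⟨e.symm, rfl⟩

theorem mn_of {L : FirstOrder.Language.{0, 0}} {X : Type} [L.Structure X] [Countable X]
    (hO : Olig L X) (h : D.IsStronglyMinimal L X) : Mn (AutP L X) := by
  have := h.1
  have cof : ∀ F : Set X, F.Finite → ∀ a ∉ cl (AutP L X) F,
      {b | ∃ σ ∈ AutP L X, (∀ x ∈ F, σ x = x) ∧ σ a = b}ᶜ.Finite := by
    intro F hF a ha
    have := hF.to_subtype
    obtain ⟨φ, h1, h2⟩ := hO.iso (Sum.elim (Subtype.val : F → X) fun _ : Fin 1 => a)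
    refine (h.2 X rfl _ (definable_iff_exists_formula_sum.2
      ⟨φ.relabel (Sum.map (fun x => ⟨x.1, trivial⟩) id), Set.ext fun y => ?_⟩)).resolve_left ha
    simp only [mem_ofPred_eq, Formula.realize_relabel, Sum.elim_comp_map, comp_id]
    constructor
    · rintro ⟨_, ⟨e, rfl⟩, k1, k2⟩
      refine (iff_of_eq (congrArg φ.Realize (funext ?_))).1
        ((StrongHomClass.realize_formula e φ).2 h1)
      rintro (i | i)
      · exact k1 i.1 i.2
      · exact k2.trans (congrArg y (Subsingleton.elim _ _))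
    · intro k
      obtain ⟨e, he⟩ := hO.bf rfl rfl (h2 _ k)
      exact ⟨_, ⟨e, rfl⟩, fun x hx => congrFun he (Sum.inl ⟨x, hx⟩), congrFun he (Sum.inr 0)⟩
  refine ⟨this, fun F hF a ha b hb => ?_, fun F hF => ?_⟩
  · obtain ⟨z, hz⟩ := ((cof F hF a ha).union (cof F hF b hb)).exists_notMem
    rw [← compl_inter, notMem_compl_iff] at hz
    obtain ⟨⟨σ, s1, s2, s3⟩, τ, t1, t2, t3⟩ := hz
    refine ⟨τ⁻¹ * σ, mul_mem (inv_mem t1) s1, fun x hx => ?_, ?_⟩
    · rw [Equiv.Perm.mul_apply, s2 x hx, Equiv.Perm.inv_eq_iff_eq, t2 x hx]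
    · rw [Equiv.Perm.mul_apply, s3, Equiv.Perm.inv_eq_iff_eq, t3]
  · have := hF.to_subtype
    obtain ⟨κ, _, c, hc⟩ := hO (F ⊕ Unit)
    obtain ⟨k, hk⟩ := Finite.exists_infinite_fiber fun a => c (Sum.elim Subtype.val fun _ => a)
    replace hk := infinite_coe_iff.1 hk
    obtain ⟨a, ha⟩ := hk.nonempty
    have ga : a ∉ cl (AutP L X) F := fun j => hk (Finite.subset j fun b hb => by
      obtain ⟨e, he⟩ := hc _ _ ((mem_singleton_iff.1 ha).trans (mem_singleton_iff.1 hb).symm)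
      exact ⟨_, ⟨e, rfl⟩, fun x hx => congrFun he (Sum.inl ⟨x, hx⟩), congrFun he (Sum.inr ())⟩)
    refine (cof F hF a ga).subset ?_
    rintro _ hb ⟨σ, s1, s2, rfl⟩
    have := cl_conj (G := F) (inv_mem s1)
      (fun x hx => by rwa [Equiv.Perm.inv_eq_iff_eq.2 (s2 x hx).symm]) hb
    exact ga (by simpa using this)

theorem cv_inDF : InDF LL Cv := by
  refine ⟨cv_olig.cat, cv_ostable, fun L X _ P hI hs hp => ?_⟩
  obtain ⟨d, c, hc⟩ := interp_act hI
  have : Countable X := Injective.countable (f := c) fun x y h => by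
    obtain ⟨T, t1, -⟩ := hc (FirstOrder.Language.Equiv.refl LL Cv) fun _ _ => rfl
    exact (t1 x x fun _ => rfl).symm.trans (t1 x y (congrFun h))
  have hO : Olig L X := by
    intro I _
    obtain ⟨κ, _, cl, h⟩ := cv_olig (P ⊕ I × Fin d)
    refine ⟨κ, inferInstance, fun x => cl (Sum.elim Subtype.val fun q => c (x q.1) q.2),
      fun x y e => ?_⟩
    obtain ⟨e, he⟩ := h _ _ e
    obtain ⟨T, t1, -⟩ := hc e fun a ha => congrFun he (Sum.inl ⟨a, ha⟩)
    exact ⟨T, funext fun i => t1 _ _ fun k => congrFun he (Sum.inr (i, k))⟩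
  have hm := mn_of hO hs
  have tv : ∀ F : Set X, F.Finite → cl (AutP L X) F ⊆ F := by
    intro F0 hF0
    refine hm.triv (m := Fintype.card (Fin d × Bool)) (fun x y => ?_)
      (fun r hr => hp.2 r fun σ => hr _ ⟨σ, rfl⟩) (fun F hF s => ?_) hF0
    · obtain ⟨σ, hσ⟩ := hp.1 x y
      exact ⟨_, ⟨σ, rfl⟩, hσ⟩
    have := hF.to_subtype
    generalize hm : Fintype.card (Fin d × Bool) = m
    let t : ℕ → Fin d ⊕ F × Fin d ⊕ P → Cv := fun i =>
      Sum.elim (c (s i)) (Sum.elim (fun q => c q.1 q.2) Subtype.val)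
    obtain ⟨e, e1, e2, e3⟩ := delta (2 * m + 1) (fun i => vx (t i)) fun i => lb (t i)
    refine ⟨e, e1, fun x => ?_⟩
    have pick : ∀ a, a + m ≤ 2 * m + 1 → ∃ i : Fin (m + 1), ∀ q u,
        vx (c x) u = vx (t (e (a + i))) q →
        ∀ i' ≤ 2 * m + 1, ∀ j' ≤ 2 * m + 1, vx (t (e i')) q = vx (t (e j')) q := by
      intro a ha
      by_contra hn
      simp only [not_exists, not_forall (α := _ × Bool), Classical.not_imp] at hn
      choose q u h1 h2 using hn
      obtain ⟨i, j, k1, k2⟩ := Fintype.exists_ne_map_eq_of_card_lt u (by rw [hm]; simp)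
      exact h2 i (e3 _ (by omega) _ (by omega) (fun k => k1 (Fin.ext (by omega))) _ _
        ((h1 i).symm.trans (k2 ▸ h1 j)))
    obtain ⟨i, hi⟩ := pick 0 (by omega)
    obtain ⟨k, hk⟩ := pick (m + 1) (by omega)
    rw [zero_add] at hi
    have i1 : (i : ℕ) ≤ m := by omega
    have k1 : m < m + 1 + k := by omega
    have k2 : m + 1 + k ≤ 2 * m + 1 := by omega
    generalize m + 1 + (k : ℕ) = k at hk k1 k2
    generalize (i : ℕ) = i at hi i1
    have i2 : i ≤ 2 * m + 1 := by omega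
    have cr : ∀ u v, vx (t (e i)) u = vx (t (e k)) v → vx (t (e k)) u = vx (t (e i)) v :=
      fun u v h => ((e3 i i2 k k2 (by omega) u v h k k2 i i2).trans h).trans
        (e3 k k2 i i2 (by omega) v u h.symm k k2 i i2)
    obtain ⟨σ, -, s2, s3, s4⟩ := swap_of (vx (t (e i))) (vx (t (e k))) (by
      rintro (u | u) (v | v) h
      · exact (e2 i i2 k k2).2 u v h
      · exact cr u v h
      · exact (cr v u h.symm).symm
      · exact (e2 k k2 i i2).2 u v h)
    have fx : ∀ z, (∀ q, z = vx (t (e i)) q ∨ z = vx (t (e k)) q →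
        vx (t (e i)) q = vx (t (e k)) q) → σ z = z := fun z hz => by
      by_contra hn
      obtain ⟨q, h⟩ := s4 z hn
      rcases id h with rfl | rfl
      · exact hn ((s2 q).trans (hz q h).symm)
      · exact hn ((s3 q).trans (hz q h))
    have l1 := lift_tup s2 (e2 i i2 k k2).1
    obtain ⟨T, t1, -⟩ := hc (lift σ) fun a ha => l1 (Sum.inr (Sum.inr ⟨a, ha⟩))
    refine ⟨i, i1, k, k1, k2, _, ⟨T, rfl⟩,
      fun y hy => t1 y y fun l => l1 (Sum.inr (Sum.inl (⟨y, hy⟩, l))),
      t1 x x (lift_tup (fun u => fx _ ?_) rfl), fun j j1 j2 =>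
        t1 _ _ fun l => lift_tup (x := t (e j)) (y := t (e j)) (fun u => fx _ ?_) rfl (Sum.inl l),
      t1 _ _ fun l => l1 (Sum.inl l)⟩
    · rintro q (h | h)
      exacts [hi q u h i i2 k k2, hk q u h i i2 k k2]
    · rintro q (h | h)
      · exact e3 i i2 j (by omega) j2.symm q u h.symm i i2 k k2
      · exact e3 k k2 j (by omega) (by omega) q u h.symm i i2 k k2
  let _ : FirstOrder.Language.empty.Structure X := emptyStructure
  refine ⟨X, inferInstance, Equiv.refl X, fun n S => ?_⟩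
  have eS : (fun x => ⇑(Equiv.refl X) ∘ x) '' S = S := image_id' S
  rw [eS]
  refine ⟨fun hS => definable_of_inv (fun I _ => ⟨I → I → Prop, inferInstance,
    fun x i j => x i = x j, fun x y h => ?_⟩) S fun π _ x hx => ?_,
    fun hS => hS.map_expansion (LHom.ofIsEmpty _ L)⟩
  · obtain ⟨τ, hτ⟩ := ext_perm x y fun i j => iff_of_eq (congrFun (congrFun h i) j)
    exact ⟨τ, fun n R => Empty.elim R, funext hτ⟩
  · obtain ⟨_, ⟨e, rfl⟩, he⟩ := hm.htr tv x (π ∘ x) fun i j => π.injective.eq_iff.symm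
    exact he ▸ par_inv e (fun _ h => h.elim) hS hx

end Pool.Agent.Lib.MP_905f9a_lc.Fn
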