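import Pool.Agent.Lib.MP_905f9a_lc.Fn.Cover

/-! The cover is not homomorphically equivalent to a structure interpretable over equality. -/

namespace Pool.Agent.Lib.MP_905f9a_lc.Fn

open FirstOrder FirstOrder.Language FirstOrder.Language.Structure Function Set

section ops

variable {X Y : Type} [LL.Structure X] [LL.Structure Y]

/-- The first unary function. -/
def fS (x : X) : X := funMap (L := LL) FS.s fun _ => x

/-- The second unary function. -/
def fP (x : X) : X := funMap (L := LL) FS.p fun _ => x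

/-- The ternary function. -/
def fT (x y z : X) : X := funMap (L := LL) FS.t ![x, y, z]

/-- The relation. -/
def rR (x : X) : Prop := RelMap (L := LL) RS.r fun _ => x

theorem map_fS (h : X →[LL] Y) (x : X) : h (fS x) = fS (h x) := h.map_fun FS.s _

theorem map_fP (h : X →[LL] Y) (x : X) : h (fP x) = fP (h x) := h.map_fun FS.p _

theorem map_fT (h : X →[LL] Y) (x y z : X) : h (fT x y z) = fT (h x) (h y) (h z) :=
  (h.map_fun FS.t _).trans (congrArg (funMap (L := LL) FS.t) (funext fun i => by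
    fin_cases i <;> rfl))

theorem map_rR (h : X →[LL] Y) {x : X} (k : rR x) : rR (h x) := h.map_rel RS.r _ k

end ops

theorem cv_fT (x y z : Cv) : fT x y z = if x = y then z else x := rfl

theorem cv_rS {x : Cv} (h : rR x) : rR (fS x) := Ne.symm h

theorem cv_rP (x : Cv) : ¬ rR (fP x) := fun h => h rfl

theorem cv_SS {x : Cv} (h : rR x) : fS (fS x) ≠ x := fun e => by
  have e' : xor (xor x.2.2 (decide (x.2.1 < x.1))) (decide (x.1 < x.2.1)) = x.2.2 :=
    congrArg (fun y : Cv => y.2.2) e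
  rcases lt_or_gt_of_ne (h : x.1 ≠ x.2.1) with k | k <;> simp [k, k.not_gt] at e'

theorem cv_two {x y : Cv} (h : rR x) (h1 : fP y = fP (fS x)) (h2 : fP (fS y) = fP x) :
    y = fS x ∨ fS y = x := by
  obtain ⟨a, b, ε⟩ := x
  obtain ⟨c, d, δ⟩ := y
  obtain rfl : c = b := congrArg Prod.fst h1
  obtain rfl : d = a := congrArg Prod.fst h2
  have e : δ = xor ε (decide (c < d)) ∨ xor δ (decide (d < c)) = ε := by
    rcases lt_or_gt_of_ne (h : d ≠ c) with k | k <;> cases ε <;> cases δ <;> simp [k, k.not_gt]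
  exact e.imp (fun k => Prod.ext rfl (Prod.ext rfl k)) fun k => Prod.ext rfl (Prod.ext rfl k)

theorem no_hom (B : Type) [LL.Structure B] (P : Finset ℕ)
    (hB : InterpF FirstOrder.Language.empty ℕ (P : Set ℕ) LL B) (g : Cv →[LL] B)
    (h0 : B →[LL] Cv) : False := by
  obtain ⟨d, c, hc⟩ := interp_act hB
  have sup : ∀ F : Set ℕ, F.Finite → ∃ (T : B →[LL] B) (V : Set ℕ) (x : B), V.Finite ∧
      Disjoint V F ∧ (∀ b, (∀ k, c b k ∉ V) → T b = b) ∧ T (T x) = x ∧ rR x ∧
      T (fP x) = fP (fS x) ∧ T (fP (fS x)) = fP x := by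
    intro F hF
    have := (hF.union P.finite_toSet).to_subtype
    obtain ⟨N, hN⟩ := exists_swap ℕ (Fin d ⊕ ↥(F ∪ P)) Unit
    obtain ⟨i, j, hij, -, σ, s1, s2, s3, s4⟩ := hN
      (fun i => Sum.elim (c (g (((i : ℕ) : ℚ), ((i : ℕ) : ℚ), false))) Subtype.val) fun _ => ()
    let e : ℕ ≃[FirstOrder.Language.empty] ℕ :=
      ⟨σ, fun f => Empty.elim f, fun r => Empty.elim r⟩
    obtain ⟨T, t1, t2⟩ := hc e fun a ha => s2 (Sum.inr ⟨a, Or.inr ha⟩)
    refine ⟨T.toHom, _, g (((i : ℕ) : ℚ), ((j : ℕ) : ℚ), false), s4,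
      disjoint_left.2 fun a ha k => ha (s2 (Sum.inr ⟨a, Or.inl k⟩)),
      fun b hb => t1 b b fun k => not_not.1 (hb k), t2 s1 _, map_rR g ?_, ?_, ?_⟩
    · exact fun k => hij.ne (Fin.ext (Nat.cast_injective (R := ℚ) k))
    · rw [← map_fS, ← map_fP, ← map_fP]
      exact t1 _ _ fun k => s2 (Sum.inl k)
    · rw [← map_fS, ← map_fP, ← map_fP]
      exact t1 _ _ fun k => s3 (Sum.inl k)
  have key : ∀ n : ℕ, ∃ (h : B →[LL] Cv) (z : B) (T : ℕ → B →[LL] B) (V : ℕ → Set ℕ),
      ¬ rR (h z) ∧ ∀ i < n, (V i).Finite ∧ (∀ b, (∀ k, c b k ∉ V i) → T i b = b) ∧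
        rR (h (T i z)) ∧ ∀ j < i, Disjoint (V i) (V j) := by
    intro n
    induction n with
    | zero =>
      exact ⟨h0, fP (g (0, 0, false)), fun _ => Hom.id LL B, fun _ => ∅,
        map_fP h0 _ ▸ cv_rP _, fun i hi => absurd hi (Nat.not_lt_zero i)⟩
    | succ n ih =>
      obtain ⟨h, z, T, V, k1, k2⟩ := ih
      obtain ⟨T', V', x, v1, v2, v3, v4, v5, v6, v7⟩ :=
        sup (range (c z) ∪ ⋃ i ∈ Iio n, (V i ∪ range (c (T i z))))
          ((finite_range _).union ((finite_Iio n).biUnion fun i hi =>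
            (k2 i hi).1.union (finite_range _)))
      have w1 : T' z = z := v3 z fun k hk => disjoint_left.1 v2 hk (Or.inl ⟨k, rfl⟩)
      have w2 : ∀ i < n, T' (T i z) = T i z := fun i hi => v3 _ fun k hk =>
        disjoint_left.1 v2 hk (Or.inr (mem_biUnion hi (Or.inr ⟨k, rfl⟩)))
      obtain ⟨h', u1, u2, u3⟩ : ∃ h' : B →[LL] Cv, h' (T' x) = fS (h' x) ∧ ¬ rR (h' z) ∧
          ∀ i < n, rR (h' (T i z)) := by
        rcases cv_two (y := h (T' x)) (map_rR h v5)
          (by rw [← map_fP, ← map_fP, v6, map_fP, map_fS])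
          (by rw [← map_fS, ← map_fS, ← map_fP, ← map_fP, v7, map_fP]) with e | e
        · exact ⟨h, e, k1, fun i hi => (k2 i hi).2.2.1⟩
        · refine ⟨h.comp T', ?_, ?_, fun i hi => ?_⟩
          · rw [Hom.comp_apply, Hom.comp_apply, v4, e]
          · rwa [Hom.comp_apply, w1]
          · rw [Hom.comp_apply, w2 i hi]
            exact (k2 i hi).2.2.1
      refine ⟨h', fT (fS x) (T' x) z, update T n T', update V n V', ?_, fun i hi => ?_⟩
      · rwa [map_fT, map_fS, u1, cv_fT, if_pos rfl]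
      · rcases (Nat.lt_succ_iff_lt_or_eq.1 hi) with hi | rfl
        · rw [update_of_ne hi.ne, update_of_ne hi.ne]
          refine ⟨(k2 i hi).1, (k2 i hi).2.1, ?_, fun j hj => ?_⟩
          · rw [map_fT, map_fT, cv_fT]
            split_ifs
            · exact u3 i hi
            · rw [map_fS, map_fS]
              exact cv_rS (map_rR h' (map_rR _ v5))
          · rw [update_of_ne (hj.trans hi).ne]
            exact (k2 i hi).2.2.2 j hj
        · rw [update_self, update_self]
          refine ⟨v1, v3, ?_, fun j hj => ?_⟩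
          · rw [map_fT, map_fT, map_fS, map_fS, v4, u1, cv_fT, if_neg (cv_SS (map_rR h' v5))]
            exact cv_rS (cv_rS (map_rR h' v5))
          · rw [update_of_ne hj.ne]
            exact disjoint_left.2 fun a hv ha =>
              disjoint_left.1 v2 hv (Or.inr (mem_biUnion (mem_Iio.2 hj) (Or.inl ha)))
  obtain ⟨h, z, T, V, k1, k2⟩ := key (d + 1)
  have : ∀ i : Fin (d + 1), ∃ k, c z k ∈ V i := fun i => by
    by_contra! hn
    exact k1 ((k2 i i.2).2.1 z hn ▸ (k2 i i.2).2.2.1)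
  choose κ hκ using this
  obtain ⟨i, j, h1, h2⟩ := Fintype.exists_ne_map_eq_of_card_lt κ (by simp)
  rcases lt_or_gt_of_ne h1 with k | k
  · exact disjoint_left.1 ((k2 j j.2).2.2.2 i k) (hκ j) (h2 ▸ hκ i)
  · exact disjoint_left.1 ((k2 i i.2).2.2.2 j k) (hκ i) (h2 ▸ hκ j)

end Pool.Agent.Lib.MP_905f9a_lc.Fn
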